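import Pool.Agent.H879.PC.Nag

/-! Chains of quadratic transformations and prime divisors at generic points. -/

set_option autoImplicit false

namespace Pool.Agent.H879.PC

open MvPolynomial
open Pool.Agent.W609.CR
open Pool.Agent.TH167.SH Pool.Agent.TH167.TT
open Pool.Agent.H879.Pos (rho wt rho_nonneg sqrt_le_rho)
open Pool.Agent.H879.RV
open Pool.Agent.H539.RVO
open Finset (univ range)

/-- the points are generic: their coordinates are algebraically independent over the prime field -/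
def Gnc {K : Type} [Field K] {n : ℕ} (P : Fin n → Fin 2 → K) : Prop :=
  AlgebraicIndependent (⊥ : Subfield K) (fun ij : Fin n × Fin 2 => P ij.1 ij.2)

/-- `h⁰ - χ = 0` -/
def H1 {K : Type} [Field K] {n : ℕ} (P : Fin n → Fin 2 → K) (w : Fin n → ℕ) (d : ℕ) : Prop :=
  Module.finrank K ↥(VS (fun i => aff (P i)) w d) + ∑ i, (w i + 1).choose 2 = (d + 2).choose 2

/-- one quadratic transformation -/
def QStep {n : ℕ} (a b : ℕ × (Fin n → ℕ)) : Prop :=
  ∃ i : Fin 3 → Fin n, Function.Injective i ∧ a.2 (i 0) + a.2 (i 1) ≤ a.1 ∧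
    a.2 (i 0) + a.2 (i 2) ≤ a.1 ∧ a.2 (i 1) + a.2 (i 2) ≤ a.1 ∧
    b = (2 * a.1 - (a.2 (i 0) + a.2 (i 1) + a.2 (i 2)), wcr a.1 i a.2)

theorem le_dimV {K : Type} [Field K] {n : ℕ} (P : Fin n → Fin 2 → K) (w : Fin n → ℕ) (d : ℕ) :
    (d + 2).choose 2 ≤ Module.finrank K ↥(VS (fun i => aff (P i)) w d) +
      ∑ i, (w i + 1).choose 2 := by
  rw [vs_eq_forms]
  exact le_dim w P d

/-- the number of the expected sections does not change -/
theorem chi_inv {n d : ℕ} {i : Fin 3 → Fin n} (hi : Function.Injective i) {w : Fin n → ℕ}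
    (h01 : w (i 0) + w (i 1) ≤ d) (h02 : w (i 0) + w (i 2) ≤ d) (h12 : w (i 1) + w (i 2) ≤ d) :
    (2 * d - (w (i 0) + w (i 1) + w (i 2)) + 2).choose 2 + ∑ j, (w j + 1).choose 2 =
      (d + 2).choose 2 + ∑ j, (wcr d i w j + 1).choose 2 := by
  have h := sum_wcr d i hi w (fun x => (x + 1).choose 2)
  obtain ⟨S, hS⟩ : ∃ S, S = ∑ j, (w j + 1).choose 2 := ⟨_, rfl⟩
  obtain ⟨S', hS'⟩ : ∃ S', S' = ∑ j, (wcr d i w j + 1).choose 2 := ⟨_, rfl⟩
  rw [← hS, ← hS'] at h ⊢
  obtain ⟨a, ha⟩ : ∃ a, w (i 0) = a := ⟨_, rfl⟩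
  obtain ⟨b, hb⟩ : ∃ b, w (i 1) = b := ⟨_, rfl⟩
  obtain ⟨c, hc⟩ : ∃ c, w (i 2) = c := ⟨_, rfl⟩
  simp only [ha, hb, hc] at h h01 h02 h12 ⊢
  obtain ⟨x, hx⟩ := Nat.exists_eq_add_of_le h12
  obtain ⟨y, hy⟩ := Nat.exists_eq_add_of_le h02
  obtain ⟨z, hz⟩ := Nat.exists_eq_add_of_le h01
  obtain ⟨D, hD⟩ : ∃ D, D = 2 * d - (a + b + c) := ⟨_, rfl⟩
  have ex : d - (b + c) = x := by omega
  have ey : d - (a + c) = y := by omega
  have ez : d - (a + b) = z := by omega
  rw [ex, ey, ez] at h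
  rw [← hD]
  have hDi : (D : ℤ) = 2 * d - a - b - c := by omega
  have hxi : (x : ℤ) = d - b - c := by omega
  have hyi : (y : ℤ) = d - a - c := by omega
  have hzi : (z : ℤ) = d - a - b := by omega
  have c2 := fun m => Pool.Agent.H879.Pos.cond_two m
  have e1 := c2 (D + 1)
  have e2 := c2 (d + 1)
  have e3 := c2 a
  have e4 := c2 b
  have e5 := c2 c
  have e6 := c2 x
  have e7 := c2 y
  have e8 := c2 z
  obtain ⟨q1, hq1⟩ : ∃ q, q = (D + 1 + 1).choose 2 := ⟨_, rfl⟩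
  obtain ⟨q2, hq2⟩ : ∃ q, q = (d + 1 + 1).choose 2 := ⟨_, rfl⟩
  obtain ⟨q3, hq3⟩ : ∃ q, q = (a + 1).choose 2 := ⟨_, rfl⟩
  obtain ⟨q4, hq4⟩ : ∃ q, q = (b + 1).choose 2 := ⟨_, rfl⟩
  obtain ⟨q5, hq5⟩ : ∃ q, q = (c + 1).choose 2 := ⟨_, rfl⟩
  obtain ⟨q6, hq6⟩ : ∃ q, q = (x + 1).choose 2 := ⟨_, rfl⟩
  obtain ⟨q7, hq7⟩ : ∃ q, q = (y + 1).choose 2 := ⟨_, rfl⟩
  obtain ⟨q8, hq8⟩ : ∃ q, q = (z + 1).choose 2 := ⟨_, rfl⟩
  rw [← hq1] at e1
  rw [← hq2] at e2
  rw [← hq3] at e3 h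
  rw [← hq4] at e4 h
  rw [← hq5] at e5 h
  rw [← hq6] at e6 h
  rw [← hq7] at e7 h
  rw [← hq8] at e8 h
  change (D + 1 + 1).choose 2 + S = (d + 1 + 1).choose 2 + S'
  rw [← hq1, ← hq2]
  have hz' : (2 * (q1 + q3 + q4 + q5) : ℤ) = 2 * (q2 + q6 + q7 + q8) := by
    have f1 : (2 * q1 : ℤ) = (D + 1) * (D + 1 + 1) := by exact_mod_cast e1
    have f2 : (2 * q2 : ℤ) = (d + 1) * (d + 1 + 1) := by exact_mod_cast e2
    have f3 : (2 * q3 : ℤ) = a * (a + 1) := by exact_mod_cast e3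
    have f4 : (2 * q4 : ℤ) = b * (b + 1) := by exact_mod_cast e4
    have f5 : (2 * q5 : ℤ) = c * (c + 1) := by exact_mod_cast e5
    have f6 : (2 * q6 : ℤ) = x * (x + 1) := by exact_mod_cast e6
    have f7 : (2 * q7 : ℤ) = y * (y + 1) := by exact_mod_cast e7
    have f8 : (2 * q8 : ℤ) = z * (z + 1) := by exact_mod_cast e8
    rw [hDi] at f1
    rw [hxi] at f6
    rw [hyi] at f7
    rw [hzi] at f8
    linear_combination f1 + f3 + f4 + f5 - f2 - f6 - f7 - f8
  omega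

/-- transformations do not decrease `h¹` -/
theorem h1_chain {K : Type} [Field K] {n : ℕ} {a b : ℕ × (Fin n → ℕ)}
    (hab : Relation.ReflTransGen QStep a b) :
    (∀ P : Fin n → Fin 2 → K, Gnc P → H1 P b.2 b.1) →
      ∀ P : Fin n → Fin 2 → K, Gnc P → H1 P a.2 a.1 := by
  induction hab using Relation.ReflTransGen.head_induction_on with
  | refl => exact fun h => h
  | @head a c hac _ ih =>
    intro h P hP
    obtain ⟨i, hi, h01, h02, h12, hc⟩ := hac
    obtain ⟨P', hP', -, hdim⟩ := stepK n P hP i hi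
    have h1 := ih h P' hP'
    rw [hc] at h1
    have h2 := hdim a.1 a.2 h01 h02 h12
    have h3 := chi_inv hi h01 h02 h12
    have h4 := le_dimV P a.2 a.1
    unfold H1 at h1 ⊢
    simp only at h1
    omega

/-- an irreducible curve with `K C < 0` has `h¹ = 0` -/
theorem h1_negK {K : Type} [Field K] [IsAlgClosed K] {n : ℕ} {P : Fin n → Fin 2 → K}
    (hP : ∀ i j, P i = P j → i = j) {G : MvPolynomial (Fin 3) K} {e : ℕ} {c : Fin n → ℕ}
    (hG : Irreducible G) (hGe : G.IsHomogeneous e) (hc : ∀ i, Ord (aff (P i)) (c i) G)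
    (hlt : ∑ i, c i < 3 * e) : H1 P c e := by
  classical
  by_cases hX : (X 2 : MvPolynomial (Fin 3) K) ∣ G
  · -- the line at infinity
    have hc0 : ∀ i, c i = 0 := by
      intro i
      by_contra hne
      have hX2 : Irreducible (X 2 : MvPolynomial (Fin 3) K) := X_prime.irreducible
      obtain ⟨u, hu⟩ := (hX2.associated_of_dvd hG hX).symm
      have h1 : Van (aff (P i)) 1 G := van_mono (by omega) (hc i).1
      unfold Van at h1
      rw [pow_one, RingHom.mem_ker] at h1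
      have h2 : eval (aff (P i)) (X 2 : MvPolynomial (Fin 3) K) = 0 := by
        rw [← hu, map_mul, h1, zero_mul]
      rw [eval_X] at h2
      simp [aff] at h2
    have h1 := Pool.Agent.TH167.TT.sum_le_dim (P := P) (fun i j h => hP i j h) c (d := e) (by
      rw [Finset.sum_eq_zero fun i _ => hc0 i]
      exact Nat.zero_le _)
    exact le_antisymm h1 (le_dimV P c e)
  obtain ⟨a, ha⟩ := exists_a hGe hX
  obtain ⟨hL, -⟩ := t_lin K
  obtain ⟨hL1, hL2, hL3, hL4⟩ := hL (shm a) (shm_det a)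
  obtain ⟨P', hP'⟩ : ∃ P' : Fin n → Fin 2 → K, P' = fun i => ![P i 0 - a * P i 1, P i 1] := ⟨_, rfl⟩
  have hPP : ∀ i, (shm a).mulVec (aff (P' i)) = aff (P i) := by
    intro i
    rw [hP', shm_aff]
    congr 1
    ext j
    fin_cases j <;> simp
  have hP'inj : ∀ i j, P' i 0 = P' j 0 → P' i 1 = P' j 1 → i = j := by
    intro i j h0 h1
    apply hP
    rw [hP'] at h0 h1
    have h1' : P i 1 = P j 1 := h1
    have h0' : P i 0 - a * P i 1 = P j 0 - a * P j 1 := h0
    ext k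
    fin_cases k
    · change P i 0 = P j 0
      rw [h1'] at h0'
      linear_combination h0'
    · exact h1'
  obtain ⟨F, k1, k2, k3, k4, k5, k6⟩ := pkg (P := P') (hL2 G hG) (hL1 G e hGe)
    (by rw [eval_shm]; exact ha) (c := c) (fun i => ⟨by
      rw [← hL3, hPP]
      exact (hc i).1, by
      rw [← hL3, hPP]
      exact (hc i).2⟩)
  have hI := rl1 (a := fun i => P' i 0) (b := fun i => P' i 1) hP'inj k1 (by rw [k2]; exact k3) k4
    k5 k6 (β := fun _ => 1) (b0 := 3) (by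
      intro G
      refine ⟨0, fun i j h => by simp at h, ?_⟩
      rw [Pool.Agent.H879.RV.mem_fat]
      intro i
      simp only [Nat.sub_self]
      unfold Pool.Agent.H350R3.GR.ptI Pool.Agent.H932R2.cIdeal
      simp) (by
      rw [k2]
      simpa using hlt)
  rw [k2] at hI
  have e1 : (((3 + e : ℕ) : ℤ) - 3) = ((e : ℕ) : ℤ) := by
    push_cast
    ring
  have e2 : (fun i => 1 + c i - 1) = c := by
    funext i
    omega
  rw [e1, e2] at hI
  have h1 := finrank_Wd_eq hP'inj hI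
  rw [← forms_Wd c P' e] at h1
  have h2 := hL4 (Fin n) (fun i => aff (P' i)) c e
  have h3 : (fun i => (shm a).mulVec (aff (P' i))) = fun i => aff (P i) := funext hPP
  rw [h3] at h2
  unfold H1
  rw [h2, vs_eq_forms]
  exact h1

/-- three of the points are not on a line -/
theorem not_collinear {K : Type} [Field K] {n : ℕ} {P : Fin n → Fin 2 → K} (hP : Gnc P)
    {G : MvPolynomial (Fin 3) K} (hG : Irreducible G) (hG1 : G.IsHomogeneous 1)
    {a b c : Fin n} (hab : a ≠ b) (hac : a ≠ c) (hbc : b ≠ c)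
    (ha : Van (aff (P a)) 1 G) (hb : Van (aff (P b)) 1 G) (hc : Van (aff (P c)) 1 G) : False := by
  classical
  obtain ⟨i, hi⟩ : ∃ i : Fin 3 → Fin n, i = ![a, b, c] := ⟨_, rfl⟩
  have hinj : Function.Injective i := by
    rw [hi]
    intro x y h
    fin_cases x <;> fin_cases y <;> simp_all [hab.symm, hac.symm, hbc.symm]
  obtain ⟨hdet, -⟩ := genK n P hP i hinj
  obtain ⟨hL, -⟩ := t_lin K
  obtain ⟨hL1, hL2, hL3, -⟩ := hL (mat3 P i) hdet
  have hbs : ∀ k, (mat3 P i).mulVec (bs k) = aff (P (i k)) := by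
    intro k
    funext r
    simp only [bs, Matrix.mulVec_single_one]
    simp [mat3, Matrix.col]
  have hv : ∀ k, Van (bs k) 1 (lin (mat3 P i) G) := by
    intro k
    rw [← hL3, hbs, hi]
    fin_cases k
    · exact ha
    · exact hb
    · exact hc
  have hirr := hL2 G hG
  have hhom := hL1 G 1 hG1
  obtain ⟨s, hs⟩ := MvPolynomial.support_nonempty.2 hirr.ne_zero
  have h1 : ∀ k : Fin 3, s k = 0 := by
    intro k
    have h2 := exponent_le (n := 2) hhom k (m := 1) (hv k) hs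
    omega
  have h3 := homog_degree (n := 2) hhom hs
  rw [Finsupp.degree_eq_sum, Fin.sum_univ_three, h1 0, h1 1, h1 2] at h3
  omega

/-- the reduction of an irreducible curve -/
theorem prime_red {K : Type} [Field K] {n : ℕ} (N : ℕ) :
    ∀ (d : ℕ), d ≤ N → ∀ (P : Fin n → Fin 2 → K), Gnc P → ∀ (G : MvPolynomial (Fin 3) K)
      (w : Fin n → ℕ), Irreducible G → G.IsHomogeneous d → (∀ i, Ord (aff (P i)) (w i) G) →
      ∃ (P1 : Fin n → Fin 2 → K) (d1 : ℕ) (w1 : Fin n → ℕ) (G1 : MvPolynomial (Fin 3) K),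
        Gnc P1 ∧ Relation.ReflTransGen QStep (d, w) (d1, w1) ∧ Irreducible G1 ∧
        G1.IsHomogeneous d1 ∧ (∀ i, Ord (aff (P1 i)) (w1 i) G1) ∧ d1 ≤ d ∧ (∀ i, w1 i ≤ w i) ∧
        (d + 2).choose 2 + ∑ i, (w1 i + 1).choose 2 =
          (d1 + 2).choose 2 + ∑ i, (w i + 1).choose 2 ∧
        3 * d + ∑ i, w1 i = 3 * d1 + ∑ i, w i ∧
        Module.finrank K ↥(VS (fun i => aff (P i)) w d) ≤
          Module.finrank K ↥(VS (fun i => aff (P1 i)) w1 d1) ∧
        (d1 = 1 ∨ ∀ i j k, i ≠ j → i ≠ k → j ≠ k → w1 i + w1 j + w1 k ≤ d1) := by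
  classical
  induction N with
  | zero =>
    intro d hd P hP G w hG hGd hw
    have := one_le_deg hG hGd
    omega
  | succ N ih =>
    intro d hd P hP G w hG hGd hw
    by_cases hstd : d = 1 ∨ ∀ i j k, i ≠ j → i ≠ k → j ≠ k → w i + w j + w k ≤ d
    · exact ⟨P, d, w, G, hP, Relation.ReflTransGen.refl, hG, hGd, hw, le_rfl, fun _ => le_rfl,
        by ring, by ring, le_rfl, hstd⟩
    push Not at hstd
    obtain ⟨hd1, a, b, c, hab, hac, hbc, hsum⟩ := hstd
    have hd0 := one_le_deg hG hGd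
    obtain ⟨i, hi⟩ : ∃ i : Fin 3 → Fin n, i = ![a, b, c] := ⟨_, rfl⟩
    have hinj : Function.Injective i := by
      rw [hi]
      intro x y h
      fin_cases x <;> fin_cases y <;> simp_all [hab.symm, hac.symm, hbc.symm]
    have ei0 : i 0 = a := by rw [hi]; rfl
    have ei1 : i 1 = b := by rw [hi]; rfl
    have ei2 : i 2 = c := by rw [hi]; rfl
    obtain ⟨P', hP', hcurve, hdim⟩ := stepK n P hP i hinj
    obtain ⟨h01, h02, h12, G', hG', hG'd, hG'w⟩ := hcurve d G w (by omega) hG hGd hw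
    have hdim := hdim d w h01 h02 h12
    have hchi := chi_inv hinj h01 h02 h12
    have hsw := sum_wcr d i hinj w (fun x => x)
    rw [ei0, ei1, ei2] at hdim
    simp only [ei0, ei1, ei2] at h01 h02 h12 hG'd hchi hsw
    obtain ⟨d', hd'⟩ : ∃ d', d' = 2 * d - (w a + w b + w c) := ⟨_, rfl⟩
    rw [← hd'] at hG'd hdim hchi
    obtain ⟨P1, d1, w1, G1, r1, r2, r3, r4, r5, r6, r7, r8, r9, r10, r11⟩ :=
      ih d' (by omega) P' hP' G' (wcr d i w) hG' hG'd hG'w
    refine ⟨P1, d1, w1, G1, r1, Relation.ReflTransGen.head ?_ r2, r3, r4, r5, by omega, ?_, ?_, ?_,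
      hdim.trans r10, r11⟩
    · refine ⟨i, hinj, ?_, ?_, ?_, ?_⟩
      · rw [ei0, ei1]
        exact h01
      · rw [ei0, ei2]
        exact h02
      · rw [ei1, ei2]
        exact h12
      · rw [ei0, ei1, ei2, hd']
    · intro j
      refine (r7 j).trans ?_
      unfold wcr
      rw [ei0, ei1, ei2]
      split_ifs with g1 g2 g3
      · rw [g1]
        omega
      · rw [g2]
        omega
      · rw [g3]
        omega
      · exact le_rfl
    · omega
    · omega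

end Pool.Agent.H879.PC
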