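import Pool.Agent.H879.PC.Chain

/-! Simple generic points, in every characteristic. -/

set_option autoImplicit false

namespace Pool.Agent.H879.PC

open MvPolynomial
open Pool.Agent.W609.CR
open Pool.Agent.TH167.SH Pool.Agent.TH167.TT
open Pool.Agent.H879.RV
open Finset (univ range)

theorem tau_zero_ne {L : Type} [Field L] {d : ℕ} {F : MvPolynomial (Fin 3) L}
    (hF : F.IsHomogeneous d) (h : F ≠ 0) :
    (aeval ![X 0, X 1, 1] F : MvPolynomial (Fin 2) L) ≠ 0 := by
  intro h0
  apply h
  refine Pool.Agent.H932R2.deh_eq_zero hF ?_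
  have h1 : Pool.Agent.H932R2.deh L F =
      (aeval ![Polynomial.C Polynomial.X, Polynomial.X] :
        MvPolynomial (Fin 2) L →ₐ[L] Polynomial (Polynomial L)) (aeval ![X 0, X 1, 1] F) := by
    have h2 : Pool.Agent.H932R2.deh L =
        ((aeval ![Polynomial.C Polynomial.X, Polynomial.X] :
          MvPolynomial (Fin 2) L →ₐ[L] Polynomial (Polynomial L)).comp
          (aeval ![X 0, X 1, 1])) := by
      apply MvPolynomial.algHom_ext
      intro i
      fin_cases i
      · simp [Pool.Agent.H932R2.deh_X0]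
      · simp [Pool.Agent.H932R2.deh_X1]
      · simp [Pool.Agent.H932R2.deh_X2]
    rw [h2]
    rfl
  rw [h1, h0, map_zero]

theorem van_map {L K : Type} [Field L] [Field K] [Algebra L K] {v : Fin 3 → L} {m : ℕ}
    {F : MvPolynomial (Fin 3) L} (h : Van v m F) :
    Van (fun l => algebraMap L K (v l)) m (MvPolynomial.map (algebraMap L K) F) := by
  unfold Van at h ⊢
  have h1 := Ideal.mem_map_of_mem (MvPolynomial.map (algebraMap L K)) h
  rw [Ideal.map_pow] at h1
  refine Ideal.pow_right_mono ?_ m h1
  rw [Ideal.map_le_iff_le_comap]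
  intro G hG
  rw [RingHom.mem_ker] at hG
  rw [Ideal.mem_comap, RingHom.mem_ker, MvPolynomial.eval_map]
  have h2 : eval₂ (algebraMap L K) (fun l => algebraMap L K (v l)) G =
      algebraMap L K (eval v G) := by
    rw [MvPolynomial.eval, coe_eval₂Hom, MvPolynomial.eval₂_comp_left, RingHom.comp_id]
    rfl
  rw [h2, hG, map_zero]

open IntermediateField.algebraAdjoinAdjoin in
/-- a form with the multiplicities `u` which does not vanish at a further generic point -/
theorem exists_form {K : Type} [Field K] {n : ℕ} {P : Fin n → Fin 2 → K} (hP : Gnc P)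
    {u : Fin n → ℕ} {j : Fin n} (hj : u j = 0) {d : ℕ}
    (hC : ∑ i, (u i + 1).choose 2 < (d + 2).choose 2) :
    ∃ F ∈ VS (fun i => aff (P i)) u d, eval (aff (P j)) F ≠ 0 := by
  classical
  obtain ⟨x, hx⟩ : ∃ x : Fin n × Fin 2 → K, x = fun ij => P ij.1 ij.2 := ⟨_, rfl⟩
  obtain ⟨s, hs⟩ : ∃ s : Set (Fin n × Fin 2), s = {ij | ij.1 ≠ j} := ⟨_, rfl⟩
  obtain ⟨t, ht⟩ : ∃ t : Set (Fin n × Fin 2), t = {ij | ij.1 = j} := ⟨_, rfl⟩
  have hxi : AlgebraicIndependent (⊥ : Subfield K) x := by
    rw [hx]
    exact hP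
  have hst : Disjoint s t := by
    rw [Set.disjoint_left, hs, ht]
    intro a ha hb
    exact ha hb
  have h1 := hxi.adjoin_of_disjoint hst
  have h2 : AlgebraicIndependent (IntermediateField.adjoin (⊥ : Subfield K) (x '' s))
      (fun i : t => x i) := h1.extendScalars _
  obtain ⟨L, hL⟩ : ∃ L, L = IntermediateField.adjoin (⊥ : Subfield K) (x '' s) := ⟨_, rfl⟩
  rw [← hL] at h2
  have hmem : ∀ i l, i ≠ j → P i l ∈ L := by
    intro i l hi
    rw [hL]
    refine IntermediateField.subset_adjoin _ _ ⟨(i, l), ?_, by rw [hx]⟩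
    rw [hs]
    exact hi
  obtain ⟨P0, hP0⟩ : ∃ P0 : Fin n → Fin 2 → L, P0 = fun i l =>
    if h : i ≠ j then ⟨P i l, hmem i l h⟩ else 0 := ⟨_, rfl⟩
  have hP0' : ∀ i l, i ≠ j → algebraMap L K (P0 i l) = P i l := by
    intro i l hi
    rw [hP0]
    simp only
    rw [dif_pos hi]
    rfl
  -- a form over the smaller field
  have h3 := le_dimV P0 u d
  have h4 : 0 < Module.finrank L ↥(VS (fun i => aff (P0 i)) u d) := by omega
  have hfin := vs_fin (fun i => aff (P0 i)) u d
  obtain ⟨⟨F0, hF0⟩, hne⟩ := Module.finrank_pos_iff_exists_ne_zero.1 h4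
  have hne' : F0 ≠ 0 := fun h => hne (Subtype.ext h)
  obtain ⟨hF0d, hF0v⟩ := (Pool.Agent.W150.CR.mem_VS _ _ _ _).1 hF0
  refine ⟨MvPolynomial.map (algebraMap L K) F0, (Pool.Agent.W150.CR.mem_VS _ _ _ _).2
    ⟨hF0d.map _, fun i => ?_⟩, ?_⟩
  · by_cases hi : i = j
    · rw [hi, hj]
      exact van_zero _ _
    · have h5 := van_map (K := K) (hF0v i)
      have h6 : (fun l => algebraMap L K (aff (P0 i) l)) = aff (P i) := by
        funext l
        fin_cases l
        · exact hP0' i 0 hi
        · exact hP0' i 1 hi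
        · exact map_one _
      rw [h6] at h5
      exact h5
  · have h5 : AlgebraicIndependent L (fun l : Fin 2 => P j l) := by
      have h6 := h2.comp (fun l : Fin 2 => (⟨(j, l), by rw [ht]; rfl⟩ : t)) (by
        intro a b hab
        have := congrArg (fun z : t => (z : Fin n × Fin 2).2) hab
        exact this)
      have h7 : ((fun i : t => x i) ∘ fun l : Fin 2 => (⟨(j, l), by rw [ht]; rfl⟩ : t)) =
          fun l : Fin 2 => P j l := by
        funext l
        rw [hx]
        rfl
      rw [h7] at h6
      exact h6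
    intro h0
    apply tau_zero_ne hF0d hne'
    apply h5.eq_zero_of_aeval_eq_zero
    rw [← h0, MvPolynomial.eval_map]
    have h6 : (aeval fun l : Fin 2 => P j l).comp (aeval ![X 0, X 1, 1] :
        MvPolynomial (Fin 3) L →ₐ[L] MvPolynomial (Fin 2) L) =
        (aeval (aff (P j)) : MvPolynomial (Fin 3) L →ₐ[L] K) := by
      apply MvPolynomial.algHom_ext
      intro l
      fin_cases l
      · simp [aff]
      · simp [aff]
      · simp [aff]
    have h7 := DFunLike.congr_fun h6 F0
    rw [AlgHom.comp_apply] at h7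
    rw [h7]
    rfl

/-- the expected dimension -/
def Exp {K : Type} [Field K] {n : ℕ} (P : Fin n → Fin 2 → K) (w : Fin n → ℕ) (d : ℕ) : Prop :=
  Module.finrank K ↥(VS (fun i => aff (P i)) w d) = (d + 2).choose 2 - ∑ i, (w i + 1).choose 2

theorem H1.exp {K : Type} [Field K] {n : ℕ} {P : Fin n → Fin 2 → K} {w : Fin n → ℕ} {d : ℕ}
    (h : H1 P w d) : Exp P w d := by
  unfold H1 at h
  unfold Exp
  omega

/-- one more simple point -/
theorem exp_update {K : Type} [Field K] {n : ℕ} {P : Fin n → Fin 2 → K} (hP : Gnc P)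
    {u : Fin n → ℕ} {j : Fin n} (hj : u j = 0) {d : ℕ} (h : Exp P u d) :
    Exp P (Function.update u j 1) d := by
  classical
  obtain ⟨u', hu'⟩ : ∃ u', u' = Function.update u j 1 := ⟨_, rfl⟩
  rw [← hu']
  have hsum : ∑ i, (u' i + 1).choose 2 = ∑ i, (u i + 1).choose 2 + 1 := by
    rw [← Finset.add_sum_erase univ _ (Finset.mem_univ j),
      ← Finset.add_sum_erase univ (fun i => (u i + 1).choose 2) (Finset.mem_univ j)]
    have h1 : ∑ i ∈ univ.erase j, (u' i + 1).choose 2 = ∑ i ∈ univ.erase j, (u i + 1).choose 2 := by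
      refine Finset.sum_congr rfl fun i hi => ?_
      rw [hu', Function.update_of_ne (Finset.ne_of_mem_erase hi)]
    rw [h1, hu', Function.update_self]
    simp only [hj]
    have : (1 + 1).choose 2 = 1 := rfl
    have : (0 + 1).choose 2 = 0 := rfl
    omega
  have hle : VS (fun i => aff (P i)) u' d ≤ VS (fun i => aff (P i)) u d :=
    vs_mono _ d fun i => by
      rw [hu']
      by_cases hi : i = j
      · rw [hi, Function.update_self, hj]
        exact Nat.zero_le _
      · rw [Function.update_of_ne hi]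
  have hfin := vs_fin (fun i => aff (P i)) u d
  have hfin' := vs_fin (fun i => aff (P i)) u' d
  have h1 := Submodule.finrank_mono hle
  have h2 := le_dimV P u' d
  unfold Exp at h ⊢
  rcases Nat.lt_or_ge (∑ i, (u i + 1).choose 2) ((d + 2).choose 2) with hC | hC
  · obtain ⟨F, hF, hFj⟩ := exists_form hP hj hC
    have hlt : VS (fun i => aff (P i)) u' d < VS (fun i => aff (P i)) u d := by
      refine lt_of_le_of_ne hle fun heq => ?_
      rw [← heq] at hF
      have h3 := ((Pool.Agent.W150.CR.mem_VS _ _ _ _).1 hF).2 j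
      rw [hu', Function.update_self] at h3
      unfold Van at h3
      rw [pow_one, RingHom.mem_ker] at h3
      exact hFj h3
    have h4 := Submodule.finrank_lt_finrank_of_lt hlt
    omega
  · omega

/-- any number of simple points -/
theorem exp_simple {K : Type} [Field K] {n : ℕ} {P : Fin n → Fin 2 → K} (hP : Gnc P)
    {u : Fin n → ℕ} {d : ℕ} (h : Exp P u d) (T : Finset (Fin n)) :
    (∀ j ∈ T, u j = 0) → Exp P (fun i => if i ∈ T then 1 else u i) d := by
  classical
  induction T using Finset.induction_on with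
  | empty =>
    intro _
    simpa using h
  | insert j T hjT ih =>
    intro hT
    have h1 := ih fun i hi => hT i (Finset.mem_insert_of_mem hi)
    have h2 := exp_update hP (j := j) (by
      rw [if_neg hjT]
      exact hT j (Finset.mem_insert_self _ _)) h1
    have h3 : Function.update (fun i => if i ∈ T then 1 else u i) j 1 =
        fun i => if i ∈ insert j T then 1 else u i := by
      funext i
      by_cases hi : i = j
      · rw [hi, Function.update_self, if_pos (Finset.mem_insert_self _ _)]
      · rw [Function.update_of_ne hi]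
        by_cases hiT : i ∈ T
        · rw [if_pos hiT, if_pos (Finset.mem_insert_of_mem hiT)]
        · rw [if_neg hiT, if_neg fun h => (Finset.mem_insert.1 h).elim hi hiT]
    rw [h3] at h2
    exact h2

/-- the simple points may be left out -/
theorem exp_big {K : Type} [Field K] {n : ℕ} {P : Fin n → Fin 2 → K} (hP : Gnc P)
    {w : Fin n → ℕ} {d : ℕ} (h : Exp P (fun i => if 2 ≤ w i then w i else 0) d) : Exp P w d := by
  classical
  have h1 := exp_simple hP h (univ.filter fun i => w i = 1) fun j hj => by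
    have := (Finset.mem_filter.1 hj).2
    rw [if_neg (by omega)]
  have h2 : (fun i => if i ∈ univ.filter (fun i => w i = 1) then 1 else
      if 2 ≤ w i then w i else 0) = w := by
    funext i
    by_cases hi : w i = 1
    · have h3 : i ∈ univ.filter fun i => w i = 1 := Finset.mem_filter.2 ⟨Finset.mem_univ i, hi⟩
      rw [if_pos h3, hi]
    · have h3 : i ∉ univ.filter fun i => w i = 1 := fun h => hi (Finset.mem_filter.1 h).2
      rw [if_neg h3]
      split_ifs <;> omega
  rw [h2] at h1
  exact h1

end Pool.Agent.H879.PC
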