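import Pool.Agent.H879.PC.Sorted
import Pool.Agent.H879.PC.Pt

/-! The theorems for all classes and for prime divisors, in every characteristic. -/

set_option autoImplicit false

namespace Pool.Agent.H879.PC

open MvPolynomial
open Pool.Agent.W609.CR
open Pool.Agent.TH167.SH Pool.Agent.TH167.TT
open Pool.Agent.H879.Pos (rho wt rho_nonneg sqrt_le_rho)
open Pool.Agent.H879.RV
open Pool.Agent.H539.RVO
open Finset (univ range)

/-- the multiplicities at least two -/
def bigw {n : ℕ} (w : Fin n → ℕ) : Fin n → ℕ := fun i => if 2 ≤ w i then w i else 0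

/-- the criterion -/
def Above {n : ℕ} (d : ℕ) (w : Fin n → ℕ) : Prop :=
  2 * wt (bigw w) + 3 * √((max 10 (univ.filter fun i => 2 ≤ w i).card : ℕ) : ℝ) ≤ 2 * d + 9

theorem ind_wt' {K : Type} [Field K] [IsAlgClosed K] {n : ℕ} (hn : 9 ≤ n) {P : Fin n → Fin 2 → K}
    (hP : Gnc P) {v : Fin n → ℕ} {d κ : ℕ} (hκ : 10 ≤ κ)
    (hs : (univ.filter fun i => 0 < v i).card ≤ κ) (h : 2 * wt v + 3 * √(κ : ℝ) ≤ 2 * d + 9) :
    H1 P v d := by
  classical
  have hn3 : (3 : ℝ) < √(κ : ℝ) := by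
    rw [Real.lt_sqrt (by norm_num)]
    have : (10 : ℝ) ≤ κ := by exact_mod_cast hκ
    linarith
  have hr := Pool.Agent.H879.Pos.rho_le (κ := κ) (by omega) hs
  have hw := wt_up v
  have key := rv_wt (pts_injK hP) (fun S G e c hG hGe hc => nag_le hn hP hG.ne_zero hGe
    (fun i => (hc i).1) S) (v := v) (d := d) hs (by rw [hw]; linarith) (by rw [hw]; linarith)
  unfold H1
  rw [vs_eq_forms]
  exact key

/-- **the criterion for all classes** -/
theorem exp_above {K : Type} [Field K] [IsAlgClosed K] {n : ℕ} (hn : 9 ≤ n)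
    {P : Fin n → Fin 2 → K} (hP : Gnc P) {w : Fin n → ℕ} {d : ℕ} (h : Above d w) : Exp P w d := by
  refine exp_big hP (ind_wt' hn hP (v := bigw w) (κ := max 10 (univ.filter fun i => 2 ≤ w i).card)
    (le_max_left _ _) ?_ h).exp
  refine le_trans (Finset.card_le_card fun i hi => ?_) (le_max_right _ _)
  rw [Finset.mem_filter] at hi ⊢
  refine ⟨Finset.mem_univ i, ?_⟩
  by_contra hcon
  have h1 := hi.2
  unfold bigw at h1
  rw [if_neg hcon] at h1
  exact lt_irrefl _ h1

/-- transformations -/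
theorem exp_chain {K : Type} [Field K] {n : ℕ} {a b : ℕ × (Fin n → ℕ)}
    (hab : Relation.ReflTransGen QStep a b) :
    (∀ P : Fin n → Fin 2 → K, Gnc P → Exp P b.2 b.1) →
      ∀ P : Fin n → Fin 2 → K, Gnc P → Exp P a.2 a.1 := by
  induction hab using Relation.ReflTransGen.head_induction_on with
  | refl => exact fun h => h
  | @head a c hac _ ih =>
    intro h P hP
    obtain ⟨i, hi, h01, h02, h12, hc⟩ := hac
    obtain ⟨P', hP', -, hdim⟩ := stepK n P hP i hi
    have h1 := ih h P' hP'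
    rw [hc] at h1
    have h2 := hdim a.1 a.2 h01 h02 h12
    have h3 := chi_inv hi h01 h02 h12
    have h4 := le_dimV P a.2 a.1
    unfold Exp at h1 ⊢
    simp only at h1
    omega

/-- an effective class of the expected dimension -/
theorem Exp.h1 {K : Type} [Field K] {n : ℕ} {P : Fin n → Fin 2 → K} {w : Fin n → ℕ} {d : ℕ}
    (h : Exp P w d) {G : MvPolynomial (Fin 3) K} (hG : G ≠ 0) (hGd : G.IsHomogeneous d)
    (hw : ∀ i, Van (aff (P i)) (w i) G) : H1 P w d := by
  have hfin := vs_fin (fun i => aff (P i)) w d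
  have h1 : G ∈ VS (fun i => aff (P i)) w d := (Pool.Agent.W150.CR.mem_VS _ _ _ _).2 ⟨hGd, hw⟩
  have h2 : 0 < Module.finrank K ↥(VS (fun i => aff (P i)) w d) :=
    Module.finrank_pos_iff_exists_ne_zero.2 ⟨⟨G, h1⟩, fun h0 => hG (congrArg Subtype.val h0)⟩
  unfold Exp at h
  unfold H1
  omega

/-- **prime divisors** -/
theorem prime_all {K : Type} [Field K] [IsAlgClosed K] {n : ℕ} (hn : 9 ≤ n)
    {P : Fin n → Fin 2 → K} (hP : Gnc P) {G : MvPolynomial (Fin 3) K} {d : ℕ} {w : Fin n → ℕ}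
    (hG : Irreducible G) (hGd : G.IsHomogeneous d) (hw : ∀ i, Ord (aff (P i)) (w i) G) :
    H1 P w d ∨ ∃ (P1 : Fin n → Fin 2 → K) (d1 : ℕ) (w1 : Fin n → ℕ)
      (G1 : MvPolynomial (Fin 3) K), Gnc P1 ∧ Relation.ReflTransGen QStep (d, w) (d1, w1) ∧
        Irreducible G1 ∧ G1.IsHomogeneous d1 ∧ (∀ i, Ord (aff (P1 i)) (w1 i) G1) ∧ d1 ≤ d ∧
        (∀ i, w1 i ≤ w i) ∧
        (∀ i j k, i ≠ j → i ≠ k → j ≠ k → w1 i + w1 j + w1 k ≤ d1) ∧
        (d + 2).choose 2 + ∑ i, (w1 i + 1).choose 2 =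
          (d1 + 2).choose 2 + ∑ i, (w i + 1).choose 2 ∧
        Module.finrank K ↥(VS (fun i => aff (P i)) w d) ≤
          Module.finrank K ↥(VS (fun i => aff (P1 i)) w1 d1) ∧
        3 * d1 ≤ ∑ i, w1 i ∧ ¬ Above d1 w1 := by
  classical
  obtain ⟨P1, d1, w1, G1, r1, r2, r3, r4, r5, r6, r7, r8, r9, r10, r11⟩ :=
    prime_red d d le_rfl P hP G w hG hGd hw
  have hdown : H1 P1 w1 d1 → H1 P w d := by
    intro h1
    have h4 := le_dimV P w d
    unfold H1 at h1 ⊢
    omega
  by_cases hh : H1 P1 w1 d1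
  · exact Or.inl (hdown hh)
  right
  have hK : 3 * d1 ≤ ∑ i, w1 i := by
    by_contra hcon
    exact hh (h1_negK (pts_injK r1) r3 r4 r5 (by omega))
  have hstd : ∀ i j k, i ≠ j → i ≠ k → j ≠ k → w1 i + w1 j + w1 k ≤ d1 := by
    rcases r11 with r11 | r11
    · -- a line: at most two of the points
      exfalso
      subst r11
      have hle : ∀ i, w1 i ≤ 1 := fun i => van_le r3.ne_zero r4 (r5 i).1
      have h3 : 3 ≤ (univ.filter fun i => w1 i ≠ 0).card := by
        have h4 : ∑ i, w1 i = (univ.filter fun i => w1 i ≠ 0).card := by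
          rw [Finset.card_filter]
          refine Finset.sum_congr rfl fun i _ => ?_
          have := hle i
          interval_cases w1 i <;> simp
        omega
      obtain ⟨T, hT, hT3⟩ := Finset.exists_subset_card_eq h3
      obtain ⟨a, b, c, hab, hac, hbc, hTe⟩ := Finset.card_eq_three.1 hT3
      have hone : ∀ i ∈ T, Van (aff (P1 i)) 1 G1 := by
        intro i hi
        have h5 := (Finset.mem_filter.1 (hT hi)).2
        exact van_mono (by omega) (r5 i).1
      exact not_collinear r1 r3 r4 hab hac hbc (hone a (by rw [hTe]; simp))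
        (hone b (by rw [hTe]; simp)) (hone c (by rw [hTe]; simp))
    · exact r11
  exact ⟨P1, d1, w1, G1, r1, r2, r3, r4, r5, r6, r7, hstd, r8, r10, hK, fun hcon =>
    hh ((exp_above hn r1 hcon).h1 r3.ne_zero r4 fun i => (r5 i).1)⟩

end Pool.Agent.H879.PC
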