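import Pool.Agent.H879.PC.Step
import Pool.Agent.H879.RV.Wt
import Pool.Graph.R_seed8.TH545.CF.Main

/-! Nagata's inequality for generic points in every characteristic, and the weight. -/

set_option autoImplicit false

namespace Pool.Agent.H879.PC

open MvPolynomial
open Pool.Agent.W609.CR
open Pool.Agent.TH167.SH (van_le)
open Pool.Agent.H879.Pos (rho wt rho_nonneg sqrt_le_rho)
open Pool.Agent.H879.RV (up rv_wt wt_up supp_up)
open Finset (univ range)

/-- the cyclic permutation of the variables -/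
def cyc : Fin 3 → Fin 3 := ![1, 2, 0]

theorem cyc_inj : Function.Injective cyc := by decide

theorem sum_all {K : Type} [Field K] {r : ℕ} (hr : 9 ≤ r) {P : Fin r → Fin 2 → K}
    (hP : AlgebraicIndependent (⊥ : Subfield K) (fun ij : Fin r × Fin 2 => P ij.1 ij.2))
    {G : MvPolynomial (Fin 3) K} {e : ℕ} {c : Fin r → ℕ} (hG : G ≠ 0) (hGe : G.IsHomogeneous e)
    (hc : ∀ i, Van (aff (P i)) (c i) G) : ((∑ i, c i : ℕ) : ℝ) ≤ √(r : ℝ) * e := by
  have h := Pool.Agent.TH545.CF.sum_le hr hP c e (rename cyc G) (hGe.rename_isHomogeneous)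
    (fun h0 => hG (rename_injective cyc cyc_inj (by rw [h0, map_zero]))) (fun i => by
      have h1 := (t_link K (P i) (c i) G e hGe).1 (hc i)
      have h2 := Ideal.mem_map_of_mem (rename cyc : MvPolynomial (Fin 3) K →ₐ[K] _).toRingHom h1
      rw [Ideal.map_pow, Ideal.map_span] at h2
      have e1 : ((rename cyc : MvPolynomial (Fin 3) K →ₐ[K] MvPolynomial (Fin 3) K).toRingHom ''
          {X 0 - C (P i 0) * X 2, X 1 - C (P i 1) * X 2}) =
          {X 1 - C (P i 0) * X 0, X 2 - C (P i 1) * X 0} := by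
        rw [Set.image_pair]
        have e2 : cyc 0 = 1 := rfl
        have e3 : cyc 1 = 2 := rfl
        have e4 : cyc 2 = 0 := rfl
        simp only [AlgHom.toRingHom_eq_coe, RingHom.coe_coe, map_sub, map_mul, rename_X, rename_C,
          e2, e3, e4]
      rw [e1] at h2
      exact h2)
  push_cast
  exact h

theorem sum_sub {K : Type} [Field K] {n : ℕ} {P : Fin n → Fin 2 → K}
    (hP : AlgebraicIndependent (⊥ : Subfield K) (fun ij : Fin n × Fin 2 => P ij.1 ij.2))
    {G : MvPolynomial (Fin 3) K} {e : ℕ} {c : Fin n → ℕ} (hG : G ≠ 0) (hGe : G.IsHomogeneous e)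
    (hc : ∀ i, Van (aff (P i)) (c i) G) {S : Finset (Fin n)} (hS : 9 ≤ S.card) :
    ((∑ i ∈ S, c i : ℕ) : ℝ) ≤ √(S.card : ℝ) * e := by
  classical
  obtain ⟨f, hf⟩ : ∃ f : Fin S.card ≃ S, f = S.equivFin.symm := ⟨_, rfl⟩
  have h1 : ∑ i ∈ S, c i = ∑ j, c (f j) := by
    rw [← Finset.sum_coe_sort S]
    exact (Equiv.sum_comp f (fun i : S => c i)).symm
  rw [h1]
  refine sum_all (P := fun j => P (f j)) hS ?_ hG hGe (fun j => hc (f j))
  exact hP.comp (fun ij : Fin S.card × Fin 2 => ((f ij.1 : Fin n), ij.2)) (by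
    rintro ⟨i, a⟩ ⟨j, b⟩ h
    simp only [Prod.mk.injEq] at h
    rw [Prod.mk.injEq]
    exact ⟨f.injective (Subtype.ext h.1), h.2⟩)

theorem nag_le {K : Type} [Field K] {n : ℕ} (hn : 9 ≤ n) {P : Fin n → Fin 2 → K}
    (hP : AlgebraicIndependent (⊥ : Subfield K) (fun ij : Fin n × Fin 2 => P ij.1 ij.2))
    {G : MvPolynomial (Fin 3) K} {e : ℕ} {c : Fin n → ℕ} (hG : G ≠ 0) (hGe : G.IsHomogeneous e)
    (hc : ∀ i, Van (aff (P i)) (c i) G) (S : Finset (Fin n)) :
    ((∑ i ∈ S, c i : ℕ) : ℝ) ≤ rho S.card * e := by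
  classical
  have he : (0 : ℝ) ≤ e := Nat.cast_nonneg e
  by_cases h9 : 9 ≤ S.card
  · exact (sum_sub hP hG hGe hc h9).trans (mul_le_mul_of_nonneg_right (sqrt_le_rho _) he)
  · have h1 : ((∑ i ∈ S, c i : ℕ) : ℝ) ≤ S.card * e := by
      have h2 : ∑ i ∈ S, c i ≤ ∑ _i ∈ S, e := Finset.sum_le_sum fun i _ => van_le hG hGe (hc i)
      rw [Finset.sum_const, smul_eq_mul] at h2
      exact_mod_cast h2
    obtain ⟨S', hS', hS'9⟩ := Finset.exists_superset_card_eq (s := S) (n := 9) (by omega)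
      (by rw [Fintype.card_fin]; exact hn)
    have h3 := sum_sub hP hG hGe hc (S := S') (by omega)
    have e9 : √((9 : ℕ) : ℝ) = 3 := by
      rw [show ((9 : ℕ) : ℝ) = 3 ^ 2 by norm_num]
      exact Real.sqrt_sq (by norm_num)
    rw [hS'9, e9] at h3
    have h3' : ((∑ i ∈ S, c i : ℕ) : ℝ) ≤ 3 * e :=
      le_trans (by exact_mod_cast Finset.sum_le_sum_of_subset hS') h3
    have h4 : ((∑ i ∈ S, c i : ℕ) : ℝ) ≤ min (S.card : ℝ) 3 * e := by
      rcases le_total (S.card : ℝ) 3 with h5 | h5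
      · rw [min_eq_left h5]
        exact h1
      · rw [min_eq_right h5]
        exact h3'
    exact h4.trans (mul_le_mul_of_nonneg_right (le_max_left _ _) he)

theorem pts_injK {K : Type} [Field K] {n : ℕ} {P : Fin n → Fin 2 → K}
    (hP : AlgebraicIndependent (⊥ : Subfield K) (fun ij : Fin n × Fin 2 => P ij.1 ij.2)) :
    ∀ i j, P i = P j → i = j := by
  intro i j h
  have h1 := hP.injective (a₁ := (i, 0)) (a₂ := (j, 0)) (congrFun h 0)
  exact congrArg Prod.fst h1

/-- **Independence at generic points, above the weight, in every characteristic.** -/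
theorem ind_wt {K : Type} [Field K] [IsAlgClosed K] {n : ℕ} (hn : 10 ≤ n) {P : Fin n → Fin 2 → K}
    (hP : AlgebraicIndependent (⊥ : Subfield K) (fun ij : Fin n × Fin 2 => P ij.1 ij.2))
    {v : Fin n → ℕ} {d : ℕ} (h : 2 * wt v + 3 * √(n : ℝ) ≤ 2 * d + 9) :
    Module.finrank K ↥(VS (fun i => aff (P i)) v d) + ∑ i, (v i + 1).choose 2 =
      (d + 2).choose 2 := by
  classical
  have hs : (univ.filter fun i => 0 < v i).card ≤ n := by
    have h1 := Finset.card_filter_le (univ : Finset (Fin n)) (fun i => 0 < v i)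
    rw [Finset.card_univ, Fintype.card_fin] at h1
    exact h1
  have hn3 : (3 : ℝ) < √(n : ℝ) := by
    rw [Real.lt_sqrt (by norm_num)]
    have : (10 : ℝ) ≤ n := by exact_mod_cast hn
    linarith
  have hr := Pool.Agent.H879.Pos.rho_le (κ := n) (by omega) hs
  have hw := wt_up v
  have key := rv_wt (pts_injK hP) (fun S G e c hG hGe hc => nag_le (by omega) hP hG.ne_zero hGe
    (fun i => (hc i).1) S) (v := v) (d := d) hs (by rw [hw]; linarith) (by rw [hw]; linarith)
  rw [vs_eq_forms]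
  exact key

end Pool.Agent.H879.PC
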