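import Pool.Agent.H879.PC.Chain

/-! The weight of a decreasing vector, and the theorem for prime divisors. -/

set_option autoImplicit false

namespace Pool.Agent.H879.PC

open MvPolynomial
open Pool.Agent.W609.CR
open Pool.Agent.TH167.SH Pool.Agent.TH167.TT
open Pool.Agent.H879.Pos (rho wt rho_nonneg sqrt_le_rho)
open Pool.Agent.H879.RV
open Pool.Agent.H539.RVO
open Finset (univ range)

theorem rho_filter {n : ℕ} {v : Fin n → ℕ} (hv : Antitone v) (t : ℕ) :
    rho (univ.filter fun i => t < v i).card =
      ∑ i : Fin n, if t < v i then rho ((i : ℕ) + 1) - rho (i : ℕ) else 0 := by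
  classical
  obtain ⟨A, hA⟩ : ∃ A, A = univ.filter fun i => t < v i := ⟨_, rfl⟩
  have hiff : ∀ i, t < v i ↔ (i : ℕ) < A.card := by
    intro i
    constructor
    · intro h
      have h1 : (univ.filter fun j : Fin n => j ≤ i) ⊆ A := by
        intro j hj
        rw [hA, Finset.mem_filter]
        exact ⟨Finset.mem_univ j, lt_of_lt_of_le h (hv (Finset.mem_filter.1 hj).2)⟩
      have h2 := Finset.card_le_card h1
      have h3 : (univ.filter fun j : Fin n => j ≤ i).card = (i : ℕ) + 1 := by
        have h4 : (univ.filter fun j : Fin n => j ≤ i) = Finset.Iic i := by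
          ext j
          simp
        rw [h4, Fin.card_Iic]
      omega
    · intro h
      by_contra hcon
      have h1 : A ⊆ Finset.Iio i := by
        intro j hj
        rw [Finset.mem_Iio]
        by_contra hji
        rw [not_lt] at hji
        rw [hA, Finset.mem_filter] at hj
        have := hv hji
        omega
      have h2 := Finset.card_le_card h1
      rw [Fin.card_Iio] at h2
      omega
  have hAn : A.card ≤ n := by
    have := Finset.card_le_univ A
    rwa [Fintype.card_fin] at this
  have h1 : ∑ i : Fin n, (if t < v i then rho ((i : ℕ) + 1) - rho (i : ℕ) else 0) =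
      ∑ i : Fin n, (fun k : ℕ => if k < A.card then rho (k + 1) - rho k else 0) i := by
    refine Finset.sum_congr rfl fun i _ => ?_
    by_cases h : t < v i
    · rw [if_pos h]
      simp only
      rw [if_pos ((hiff i).1 h)]
    · rw [if_neg h]
      simp only
      rw [if_neg fun h' => h ((hiff i).2 h')]
  rw [h1, Fin.sum_univ_eq_sum_range (fun k : ℕ => if k < A.card then rho (k + 1) - rho k else 0),
    ← Finset.sum_filter]
  have h2 : (range n).filter (fun k => k < A.card) = range A.card := by
    ext k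
    rw [Finset.mem_filter, Finset.mem_range, Finset.mem_range]
    omega
  rw [h2, Finset.sum_range_sub, rho_zero, sub_zero, hA]

/-- the weight of a decreasing vector -/
theorem wt_sorted {n : ℕ} {v : Fin n → ℕ} (hv : Antitone v) :
    wt v = ∑ i : Fin n, (rho ((i : ℕ) + 1) - rho (i : ℕ)) * v i := by
  classical
  unfold Pool.Agent.H879.Pos.wt
  rw [Finset.sum_congr rfl fun t _ => rho_filter hv t, Finset.sum_comm]
  refine Finset.sum_congr rfl fun i _ => ?_
  rw [← Finset.sum_filter]
  have h2 : (range (univ.sup v)).filter (fun t => t < v i) = range (v i) := by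
    ext t
    rw [Finset.mem_filter, Finset.mem_range, Finset.mem_range]
    have h3 : v i ≤ univ.sup v := Finset.le_sup (f := v) (Finset.mem_univ i)
    omega
  rw [h2, Finset.sum_const, Finset.card_range, nsmul_eq_mul, mul_comm]

/-- **prime divisors** -/
theorem prime_main {K : Type} [Field K] [IsAlgClosed K] {n : ℕ} (hn : 10 ≤ n)
    {P : Fin n → Fin 2 → K} (hP : Gnc P) {G : MvPolynomial (Fin 3) K} {d : ℕ} {w : Fin n → ℕ}
    (hG : Irreducible G) (hGd : G.IsHomogeneous d) (hw : ∀ i, Ord (aff (P i)) (w i) G) :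
    H1 P w d ∨ ∃ (P1 : Fin n → Fin 2 → K) (d1 : ℕ) (w1 : Fin n → ℕ)
      (G1 : MvPolynomial (Fin 3) K), Gnc P1 ∧ Relation.ReflTransGen QStep (d, w) (d1, w1) ∧
        Irreducible G1 ∧ G1.IsHomogeneous d1 ∧ (∀ i, Ord (aff (P1 i)) (w1 i) G1) ∧ d1 ≤ d ∧
        (∀ i, w1 i ≤ w i) ∧
        (∀ i j k, i ≠ j → i ≠ k → j ≠ k → w1 i + w1 j + w1 k ≤ d1) ∧ ¬ H1 P1 w1 d1 ∧
        Module.finrank K ↥(VS (fun i => aff (P i)) w d) ≤
          Module.finrank K ↥(VS (fun i => aff (P1 i)) w1 d1) ∧
        3 * d1 ≤ ∑ i, w1 i ∧ 2 * (d1 : ℝ) + 9 < 2 * wt w1 + 3 * √(n : ℝ) := by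
  classical
  obtain ⟨P1, d1, w1, G1, r1, r2, r3, r4, r5, r6, r7, r8, r9, r10, r11⟩ :=
    prime_red d d le_rfl P hP G w hG hGd hw
  have hdown : H1 P1 w1 d1 → H1 P w d := by
    intro h1
    have h4 := le_dimV P w d
    unfold H1 at h1 ⊢
    omega
  by_cases hh : H1 P1 w1 d1
  · exact Or.inl (hdown hh)
  right
  have hK : 3 * d1 ≤ ∑ i, w1 i := by
    by_contra hcon
    exact hh (h1_negK (pts_injK r1) r3 r4 r5 (by omega))
  have hstd : ∀ i j k, i ≠ j → i ≠ k → j ≠ k → w1 i + w1 j + w1 k ≤ d1 := by
    rcases r11 with r11 | r11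
    · -- a line: at most two of the points
      exfalso
      subst r11
      have hle : ∀ i, w1 i ≤ 1 := fun i => van_le r3.ne_zero r4 (r5 i).1
      have h3 : 3 ≤ (univ.filter fun i => w1 i ≠ 0).card := by
        have h4 : ∑ i, w1 i = (univ.filter fun i => w1 i ≠ 0).card := by
          rw [Finset.card_filter]
          refine Finset.sum_congr rfl fun i _ => ?_
          have := hle i
          interval_cases w1 i <;> simp
        omega
      obtain ⟨T, hT, hT3⟩ := Finset.exists_subset_card_eq h3
      obtain ⟨a, b, c, hab, hac, hbc, hTe⟩ := Finset.card_eq_three.1 hT3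
      have hone : ∀ i ∈ T, Van (aff (P1 i)) 1 G1 := by
        intro i hi
        have h5 := (Finset.mem_filter.1 (hT hi)).2
        exact van_mono (by omega) (r5 i).1
      exact not_collinear r1 r3 r4 hab hac hbc (hone a (by rw [hTe]; simp))
        (hone b (by rw [hTe]; simp)) (hone c (by rw [hTe]; simp))
    · exact r11
  refine ⟨P1, d1, w1, G1, r1, r2, r3, r4, r5, r6, r7, hstd, hh, r10, hK, ?_⟩
  by_contra hcon
  push Not at hcon
  exact hh (ind_wt hn r1 hcon)

end Pool.Agent.H879.PC
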